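import Pool.Agent.N628.EB.Ebox

set_option autoImplicit false

/-!
# Sequences: windows of indices

The graph `(n / T, z_n)` of a sequence in dimension `d` as a point set in dimension `d + 1`.
-/

namespace Pool.Agent.N628.SW

open Finset MeasureTheory
open Pool.Agent.N628.EB (nu nu_prob nu_pi mu mu_prob D RR)

/-- the uniform distribution on a finite set of natural numbers -/
noncomputable def wnd (W : Finset ℕ) : Measure ℕ :=
  (W.card : ENNReal)⁻¹ • Measure.count.restrict (W : Set ℕ)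

theorem floor_push (n₀ H : ℕ) (hH : 1 ≤ H) :
    MeasurePreserving (fun t : ℝ => ⌊t * ((n₀ + H : ℕ) : ℝ)⌋₊)
      (nu ((n₀ : ℝ) / ((n₀ + H : ℕ) : ℝ)) 1) (wnd (Finset.Ico n₀ (n₀ + H))) := by
  obtain ⟨T, hT⟩ : ∃ T : ℕ, T = n₀ + H := ⟨_, rfl⟩
  rw [← hT]
  have hT0 : (0 : ℝ) < T := by
    have : 0 < T := by omega
    exact_mod_cast this
  have hTR : (T : ℝ) = n₀ + H := by rw [hT]; push_cast; ring
  have hH0 : (0 : ℝ) < H := by exact_mod_cast hH
  have hm : Measurable (fun t : ℝ => ⌊t * (T : ℝ)⌋₊) :=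
    Nat.measurable_floor.comp (measurable_id.mul_const _)
  refine ⟨hm, ?_⟩
  refine Measure.ext_of_singleton fun n => ?_
  rw [Measure.map_apply hm (measurableSet_singleton n)]
  unfold nu wnd
  rw [Measure.smul_apply, Measure.smul_apply,
    Measure.restrict_apply (hm (measurableSet_singleton n)),
    Measure.restrict_apply (measurableSet_singleton n), smul_eq_mul, smul_eq_mul]
  have hlen : (1 : ℝ) - n₀ / T = H / T := by
    rw [hTR]
    have : (n₀ : ℝ) + H ≠ 0 := by rw [← hTR]; exact hT0.ne'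
    field_simp
    ring
  by_cases hn : n ∈ Finset.Ico n₀ T
  · obtain ⟨h1, h2⟩ := Finset.mem_Ico.1 hn
    have h1R : (n₀ : ℝ) ≤ n := by exact_mod_cast h1
    have h2R : (n : ℝ) + 1 ≤ T := by exact_mod_cast h2
    have hset : (fun t : ℝ => ⌊t * (T : ℝ)⌋₊) ⁻¹' {n} ∩ Set.Icc ((n₀ : ℝ) / T) 1 =
        Set.Ico ((n : ℝ) / T) (((n : ℝ) + 1) / T) := by
      ext t
      simp only [Set.mem_inter_iff, Set.mem_preimage, Set.mem_singleton_iff, Set.mem_Icc,
        Set.mem_Ico]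
      constructor
      · rintro ⟨h3, h4, h5⟩
        have ht0 : 0 ≤ t * T := mul_nonneg (le_trans (by positivity) h4) hT0.le
        rw [Nat.floor_eq_iff ht0] at h3
        rw [div_le_iff₀ hT0, lt_div_iff₀ hT0]
        exact h3
      · rintro ⟨h3, h4⟩
        rw [div_le_iff₀ hT0] at h3
        rw [lt_div_iff₀ hT0] at h4
        have ht0 : 0 ≤ t * T := le_trans (Nat.cast_nonneg _) h3
        refine ⟨(Nat.floor_eq_iff ht0).2 ⟨h3, h4⟩, ?_, ?_⟩
        · rw [div_le_iff₀ hT0]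
          linarith
        · have : t * T ≤ 1 * T := by linarith
          exact le_of_mul_le_mul_right this hT0
    rw [hset, Real.volume_Icc, Real.volume_Ico, hlen,
      show ((n : ℝ) + 1) / T - n / T = 1 / T by ring,
      Set.inter_eq_left.2 (Set.singleton_subset_iff.2 (Finset.mem_coe.2 hn)),
      Measure.count_singleton, mul_one, Nat.card_Ico, show T - n₀ = H by omega,
      ← ENNReal.ofReal_inv_of_pos (by positivity), ← ENNReal.ofReal_mul (by positivity)]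
    rw [show ((H : ℝ) / T)⁻¹ * (1 / T) = (H : ℝ)⁻¹ by field_simp,
      ENNReal.ofReal_inv_of_pos hH0, ENNReal.ofReal_natCast]
  · have hset : (fun t : ℝ => ⌊t * (T : ℝ)⌋₊) ⁻¹' {n} ∩ Set.Icc ((n₀ : ℝ) / T) 1 ⊆ {1} := by
      rintro t ⟨h3, h4, h5⟩
      rw [Set.mem_preimage, Set.mem_singleton_iff] at h3
      have ht0 : 0 ≤ t * T := mul_nonneg (le_trans (by positivity) h4) hT0.le
      rw [Nat.floor_eq_iff ht0] at h3
      rw [div_le_iff₀ hT0] at h4
      have h6 : n₀ ≤ n := by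
        have : (n₀ : ℝ) < n + 1 := by linarith
        exact Nat.lt_succ_iff.1 (by exact_mod_cast this)
      have h7 : T ≤ n := by
        by_contra hcon
        exact hn (Finset.mem_Ico.2 ⟨h6, not_le.1 hcon⟩)
      have h8 : (T : ℝ) ≤ n := by exact_mod_cast h7
      have h9 : 1 * (T : ℝ) ≤ t * T := by linarith
      exact le_antisymm h5 (le_of_mul_le_mul_right h9 hT0)
    rw [measure_mono_null hset (measure_singleton _), mul_zero]
    have hdis : ({n} : Set ℕ) ∩ (Finset.Ico n₀ T : Set ℕ) = ∅ := by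
      rw [Set.singleton_inter_eq_empty]
      exact fun h => hn (Finset.mem_coe.1 h)
    rw [hdis, measure_empty, mul_zero]

theorem wnd_prob (n₀ H : ℕ) (hH : 1 ≤ H) : IsProbabilityMeasure (wnd (Finset.Ico n₀ (n₀ + H))) := by
  have hT0 : (0 : ℝ) < ((n₀ + H : ℕ) : ℝ) := by
    have : 0 < n₀ + H := by omega
    exact_mod_cast this
  have h1 : (n₀ : ℝ) / ((n₀ + H : ℕ) : ℝ) < 1 := by
    rw [div_lt_one hT0]
    exact_mod_cast (by omega : n₀ < n₀ + H)
  have := nu_prob h1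
  rw [← (floor_push n₀ H hH).map_eq]
  exact Measure.isProbabilityMeasure_map (floor_push n₀ H hH).measurable.aemeasurable

/-- the position and the time -/
noncomputable def pt {d : ℕ} (T : ℕ) (y : Fin (d + 1) → ℝ) : (Fin d → ℝ) × ℕ :=
  (Fin.tail y, ⌊y 0 * (T : ℝ)⌋₊)

theorem pt_preserving {d : ℕ} (n₀ H : ℕ) (hH : 1 ≤ H) (a b : Fin d → ℝ) (hab : ∀ i, a i < b i) :
    MeasurePreserving (pt (d := d) (n₀ + H))
      (mu (Fin.cons ((n₀ : ℝ) / ((n₀ + H : ℕ) : ℝ)) a : Fin (d + 1) → ℝ)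
        (Fin.cons 1 b : Fin (d + 1) → ℝ))
      ((mu a b).prod (wnd (Finset.Ico n₀ (n₀ + H)))) := by
  have hT0 : (0 : ℝ) < ((n₀ + H : ℕ) : ℝ) := by
    have : 0 < n₀ + H := by omega
    exact_mod_cast this
  have h1 : (n₀ : ℝ) / ((n₀ + H : ℕ) : ℝ) < 1 := by
    rw [div_lt_one hT0]
    exact_mod_cast (by omega : n₀ < n₀ + H)
  obtain ⟨a', ha'⟩ : ∃ a' : Fin (d + 1) → ℝ,
      a' = Fin.cons ((n₀ : ℝ) / ((n₀ + H : ℕ) : ℝ)) a := ⟨_, rfl⟩
  obtain ⟨b', hb'⟩ : ∃ b' : Fin (d + 1) → ℝ, b' = Fin.cons 1 b := ⟨_, rfl⟩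
  rw [← ha', ← hb']
  have ha0 : a' 0 = (n₀ : ℝ) / ((n₀ + H : ℕ) : ℝ) := by rw [ha', Fin.cons_zero]
  have hb0 : b' 0 = 1 := by rw [hb', Fin.cons_zero]
  have has : ∀ i : Fin d, a' i.succ = a i := fun i => by rw [ha', Fin.cons_succ]
  have hbs : ∀ i : Fin d, b' i.succ = b i := fun i => by rw [hb', Fin.cons_succ]
  have hab' : ∀ i, a' i < b' i := by
    intro i
    refine Fin.cases ?_ (fun i => ?_) i
    · rw [ha0, hb0]; exact h1
    · rw [has, hbs]; exact hab i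
  have hp' : ∀ i, IsProbabilityMeasure (nu (a' i) (b' i)) := fun i => nu_prob (hab' i)
  have hp : ∀ i, IsProbabilityMeasure (nu (a i) (b i)) := fun i => nu_prob (hab i)
  have hw := wnd_prob n₀ H hH
  have hn1 : IsProbabilityMeasure (nu ((n₀ : ℝ) / ((n₀ + H : ℕ) : ℝ)) 1) := nu_prob h1
  have e1 : mu a' b' = Measure.pi (fun i => nu (a' i) (b' i)) := (nu_pi a' b' hab').symm
  have e2 : mu a b = Measure.pi (fun i => nu (a i) (b i)) := (nu_pi a b hab).symm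
  rw [e1, e2]
  have m1 := measurePreserving_piFinSuccAbove (fun i => nu (a' i) (b' i)) 0
  have e3 : (fun j : Fin d => nu (a' ((0 : Fin (d + 1)).succAbove j))
      (b' ((0 : Fin (d + 1)).succAbove j))) = fun j => nu (a j) (b j) := by
    funext j
    rw [Fin.succAbove_zero, has, hbs]
  rw [e3, ha0, hb0] at m1
  have m2 := (floor_push n₀ H hH).prod
    (MeasurePreserving.id (Measure.pi (fun i => nu (a i) (b i))))
  have m3 := (Measure.measurePreserving_swap (μ := wnd (Finset.Ico n₀ (n₀ + H)))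
    (ν := Measure.pi (fun i => nu (a i) (b i))))
  exact m3.comp (m2.comp m1)

/-- the discrepancy function of the first `n` terms -/
noncomputable def S {d : ℕ} (z : ℕ → Fin d → ℝ) (n : ℕ) (x : Fin d → ℝ) : ℝ :=
  ∑ k ∈ range n, (if ∀ i, z k i ≤ x i then (1 : ℝ) else 0) - n * ∏ i, x i

/-- the discrepancy function minus functions of fewer variables -/
noncomputable def F {d : ℕ} (z : ℕ → Fin d → ℝ) (f : (Fin d → ℝ) → ℝ)
    (h : Fin d → (Fin d → ℝ) → ℕ → ℝ) (v : (Fin d → ℝ) × ℕ) : ℝ :=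
  S z v.2 v.1 - f v.1 - ∑ k, h k v.1 v.2

theorem measurable_S {d : ℕ} (z : ℕ → Fin d → ℝ) (n : ℕ) : Measurable (S z n) := by
  unfold S
  refine Measurable.sub ?_ ?_
  · refine Finset.measurable_fun_sum _ fun j _ => ?_
    simp only [Pool.Agent.N628.EB.ind_prod']
    refine Finset.measurable_fun_prod _ fun i _ => ?_
    exact Measurable.ite (measurableSet_le measurable_const (measurable_pi_apply i))
      measurable_const measurable_const
  · exact Measurable.const_mul (Finset.measurable_fun_prod _ fun i _ => measurable_pi_apply i) _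

theorem measurable_F {d : ℕ} (z : ℕ → Fin d → ℝ) (f : (Fin d → ℝ) → ℝ) (hf : Measurable f)
    (h : Fin d → (Fin d → ℝ) → ℕ → ℝ) (hh : ∀ k n, Measurable fun x => h k x n) :
    Measurable (F z f h) := by
  refine measurable_from_prod_countable_left fun n => ?_
  exact ((measurable_S z n).sub hf).sub (Finset.measurable_fun_sum _ fun k _ => hh k n)

/-- the functions of fewer variables in dimension `d + 1` -/
noncomputable def h' {d : ℕ} (T : ℕ) (f : (Fin d → ℝ) → ℝ) (h : Fin d → (Fin d → ℝ) → ℕ → ℝ) :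
    Fin (d + 1) → (Fin (d + 1) → ℝ) → ℝ :=
  Fin.cases (fun y => -f (Fin.tail y) / T) fun k y => -h k (pt T y).1 (pt T y).2 / T

theorem measurable_pt {d : ℕ} (T : ℕ) : Measurable (pt (d := d) T) := by
  unfold pt
  refine Measurable.prodMk ?_ ?_
  · exact measurable_pi_lambda _ fun i => measurable_pi_apply _
  · exact Nat.measurable_floor.comp ((measurable_pi_apply 0).mul_const _)

theorem measurable_h' {d : ℕ} (T : ℕ) (f : (Fin d → ℝ) → ℝ) (hf : Measurable f)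
    (h : Fin d → (Fin d → ℝ) → ℕ → ℝ) (hh : ∀ k n, Measurable fun x => h k x n)
    (k : Fin (d + 1)) : Measurable (h' T f h k) := by
  refine Fin.cases ?_ (fun k => ?_) k
  · show Measurable fun y : Fin (d + 1) → ℝ => -f (Fin.tail y) / T
    exact ((hf.comp (measurable_pi_lambda _ fun i => measurable_pi_apply _)).neg).div_const _
  · show Measurable fun y : Fin (d + 1) → ℝ => -h k (pt T y).1 (pt T y).2 / T
    have h1 : Measurable (fun v : (Fin d → ℝ) × ℕ => h k v.1 v.2) :=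
      measurable_from_prod_countable_left fun n => hh k n
    exact ((h1.comp (measurable_pt T)).neg).div_const _

theorem indep_h' {d : ℕ} (T : ℕ) (f : (Fin d → ℝ) → ℝ) (h : Fin d → (Fin d → ℝ) → ℕ → ℝ)
    (hi : ∀ (k : Fin d) (x : Fin d → ℝ) (t : ℝ) (n : ℕ), h k (Function.update x k t) n = h k x n)
    (k : Fin (d + 1)) (y : Fin (d + 1) → ℝ) (t : ℝ) :
    h' T f h k (Function.update y k t) = h' T f h k y := by
  revert k
  intro k
  refine Fin.cases ?_ (fun k => ?_) k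
  · show -f (Fin.tail (Function.update y 0 t)) / T = -f (Fin.tail y) / T
    rw [Fin.tail_update_zero]
  · show -h k (pt T (Function.update y k.succ t)).1 (pt T (Function.update y k.succ t)).2 / T =
      -h k (pt T y).1 (pt T y).2 / T
    have e1 : (pt T (Function.update y k.succ t)).1 = Function.update (pt T y).1 k t := by
      show Fin.tail (Function.update y k.succ t) = Function.update (Fin.tail y) k t
      rw [Fin.tail_update_succ]
    have e2 : (pt T (Function.update y k.succ t)).2 = (pt T y).2 := by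
      show ⌊Function.update y k.succ t 0 * (T : ℝ)⌋₊ = ⌊y 0 * (T : ℝ)⌋₊
      rw [Function.update_of_ne (Fin.succ_ne_zero k).symm]
    rw [e1, e2, hi]

/-- the point set -/
noncomputable def P {d : ℕ} (T : ℕ) (z : ℕ → Fin d → ℝ) (j : Fin T) : Fin (d + 1) → ℝ :=
  Fin.cons (((j : ℕ) + 1 : ℝ) / T) (z j)

theorem key {d : ℕ} (T : ℕ) (hT : 1 ≤ T) (z : ℕ → Fin d → ℝ) (f : (Fin d → ℝ) → ℝ)
    (h : Fin d → (Fin d → ℝ) → ℕ → ℝ) (y : Fin (d + 1) → ℝ) (hy0 : 0 ≤ y 0) (hy1 : y 0 ≤ 1) :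
    (T : ℝ) * D (fun _ => 1 / (T : ℝ)) (P T z) (h' T f h) y =
      -F z f h (pt T y) + (y 0 * T - (pt T y).2) * ∏ i, Fin.tail y i := by
  classical
  have hT0 : (0 : ℝ) < T := by exact_mod_cast hT
  obtain ⟨n, hn⟩ : ∃ n : ℕ, n = (pt T y).2 := ⟨_, rfl⟩
  have hn' : n = ⌊y 0 * (T : ℝ)⌋₊ := hn
  have hyT : 0 ≤ y 0 * T := mul_nonneg hy0 hT0.le
  have hnT : n ≤ T := by
    rw [hn']
    have : y 0 * T ≤ T := by nlinarith
    exact Nat.floor_le_of_le this
  have hcond : ∀ j : Fin T, (∀ i, P T z j i ≤ y i) ↔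
      ((j : ℕ) < n ∧ ∀ i, z j i ≤ Fin.tail y i) := by
    intro j
    rw [Fin.forall_fin_succ]
    have e0 : P T z j 0 = ((j : ℕ) + 1 : ℝ) / T := rfl
    have es : ∀ i : Fin d, P T z j i.succ = z j i := fun i => rfl
    rw [e0]
    simp only [es]
    refine and_congr ?_ Iff.rfl
    rw [div_le_iff₀ hT0, hn', ← Nat.succ_le_iff, Nat.le_floor_iff hyT]
    push_cast
    exact Iff.rfl
  have hsum : ∑ j : Fin T, (1 / (T : ℝ)) * (if ∀ i, P T z j i ≤ y i then (1 : ℝ) else 0) =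
      1 / (T : ℝ) * ∑ k ∈ range n, (if ∀ i, z k i ≤ Fin.tail y i then (1 : ℝ) else 0) := by
    rw [← Finset.mul_sum]
    congr 1
    have e1 : ∀ j : Fin T, (if ∀ i, P T z j i ≤ y i then (1 : ℝ) else 0) =
        (fun k : ℕ => if k < n ∧ ∀ i, z k i ≤ Fin.tail y i then (1 : ℝ) else 0) j := by
      intro j
      simp only [hcond j]
    rw [Finset.sum_congr rfl fun j _ => e1 j,
      Fin.sum_univ_eq_sum_range (fun k : ℕ => if k < n ∧ ∀ i, z k i ≤ Fin.tail y i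
        then (1 : ℝ) else 0) T]
    rw [← Finset.sum_subset (Finset.range_subset_range.2 hnT)]
    · refine Finset.sum_congr rfl fun k hk => ?_
      have hk' := Finset.mem_range.1 hk
      simp only [hk', true_and]
    · intro k _ hk
      rw [if_neg]
      rintro ⟨h1, -⟩
      exact hk (Finset.mem_range.2 h1)
  unfold D F S
  rw [hsum, Fin.prod_univ_succ, Fin.sum_univ_succ]
  have e2 : h' T f h 0 y = -f (Fin.tail y) / T := rfl
  have e3 : ∀ k : Fin d, h' T f h k.succ y = -h k (pt T y).1 (pt T y).2 / T := fun k => rfl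
  rw [e2]
  simp only [e3, ← hn]
  have e4 : (pt T y).1 = Fin.tail y := rfl
  have e5 : ∀ i : Fin d, y i.succ = Fin.tail y i := fun i => rfl
  rw [e4]
  simp only [e5]
  rw [← Finset.sum_div, Finset.sum_neg_distrib]
  field_simp
  ring

/-- from windows to boxes in dimension `d + 1` -/
theorem lower {d : ℕ} (n₀ H : ℕ) (hH : 1 ≤ H) (a b : Fin d → ℝ) (hab : ∀ i, a i < b i)
    (ha : ∀ i, 0 ≤ a i) (hb : ∀ i, b i ≤ 1) (z : ℕ → Fin d → ℝ) (f : (Fin d → ℝ) → ℝ)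
    (hf : Measurable f) (h : Fin d → (Fin d → ℝ) → ℕ → ℝ)
    (hh : ∀ k n, Measurable fun x => h k x n) (p : ENNReal) (hp : 1 ≤ p) :
    ENNReal.ofReal ((n₀ + H : ℕ) : ℝ) *
      eLpNorm (D (fun _ => 1 / ((n₀ + H : ℕ) : ℝ)) (P (n₀ + H) z) (h' (n₀ + H) f h)) p
        (mu (Fin.cons ((n₀ : ℝ) / ((n₀ + H : ℕ) : ℝ)) a : Fin (d + 1) → ℝ)
          (Fin.cons 1 b : Fin (d + 1) → ℝ)) ≤
      eLpNorm (F z f h) p ((mu a b).prod (wnd (Finset.Ico n₀ (n₀ + H)))) + 1 := by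
  have hpt := pt_preserving n₀ H hH a b hab
  have hprob : IsProbabilityMeasure (mu (Fin.cons ((n₀ : ℝ) / ((n₀ + H : ℕ) : ℝ)) a :
      Fin (d + 1) → ℝ) (Fin.cons 1 b : Fin (d + 1) → ℝ)) := by
    have h1 := mu_prob hab
    have h2 := wnd_prob n₀ H hH
    refine mu_prob fun i => ?_
    have hT0 : (0 : ℝ) < ((n₀ + H : ℕ) : ℝ) := by
      have : 0 < n₀ + H := by omega
      exact_mod_cast this
    refine Fin.cases ?_ (fun i => ?_) i
    · rw [Fin.cons_zero, Fin.cons_zero, div_lt_one hT0]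
      exact_mod_cast (by omega : n₀ < n₀ + H)
    · rw [Fin.cons_succ, Fin.cons_succ]
      exact hab i
  obtain ⟨T, hT⟩ : ∃ T : ℕ, T = n₀ + H := ⟨_, rfl⟩
  have hT1 : 1 ≤ T := by omega
  rw [← hT] at hpt hprob ⊢
  have hT0 : (0 : ℝ) < T := by exact_mod_cast hT1
  obtain ⟨a', ha'⟩ : ∃ a' : Fin (d + 1) → ℝ, a' = Fin.cons ((n₀ : ℝ) / (T : ℝ)) a := ⟨_, rfl⟩
  obtain ⟨b', hb'⟩ : ∃ b' : Fin (d + 1) → ℝ, b' = Fin.cons 1 b := ⟨_, rfl⟩
  rw [← ha', ← hb'] at hpt hprob ⊢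
  have hFm := measurable_F z f hf h hh
  have h1 : eLpNorm (F z f h) p ((mu a b).prod (wnd (Finset.Ico n₀ T))) =
      eLpNorm (fun y => F z f h (pt T y)) p (mu a' b') := by
    rw [← eLpNorm_comp_measurePreserving hFm.aestronglyMeasurable hpt]
    rfl
  obtain ⟨Dd, hDd⟩ : ∃ Dd : (Fin (d + 1) → ℝ) → ℝ,
      Dd = D (fun _ => 1 / (T : ℝ)) (P T z) (h' T f h) := ⟨_, rfl⟩
  rw [← hDd]
  obtain ⟨er, her⟩ : ∃ er : (Fin (d + 1) → ℝ) → ℝ,
      er = fun y => (y 0 * T - (pt T y).2) * ∏ i, Fin.tail y i := ⟨_, rfl⟩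
  have hbox : ∀ᵐ y ∂(mu a' b'), y ∈ Set.Icc a' b' := by
    unfold mu
    exact Measure.ae_smul_measure (ae_restrict_mem measurableSet_Icc) _
  have hy : ∀ y ∈ Set.Icc a' b', 0 ≤ y 0 ∧ y 0 ≤ 1 ∧ ∀ i, 0 ≤ Fin.tail y i ∧ Fin.tail y i ≤ 1 := by
    intro y hy
    have h2 := hy.1 0
    have h3 := hy.2 0
    rw [ha', Fin.cons_zero] at h2
    rw [hb', Fin.cons_zero] at h3
    refine ⟨le_trans (by positivity) h2, h3, fun i => ?_⟩
    have h4 := hy.1 i.succ
    have h5 := hy.2 i.succ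
    rw [ha', Fin.cons_succ] at h4
    rw [hb', Fin.cons_succ] at h5
    exact ⟨(ha i).trans h4, h5.trans (hb i)⟩
  have h2 : eLpNorm ((T : ℝ) • Dd) p (mu a' b') =
      eLpNorm ((fun y => -F z f h (pt T y)) + er) p (mu a' b') := by
    refine eLpNorm_congr_ae (hbox.mono fun y hyb => ?_)
    obtain ⟨h3, h4, -⟩ := hy y hyb
    rw [Pi.smul_apply, smul_eq_mul, Pi.add_apply, hDd, her]
    exact key T hT1 z f h y h3 h4
  have herm : Measurable er := by
    rw [her]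
    have e1 : Measurable fun y : Fin (d + 1) → ℝ => ((pt T y).2 : ℝ) :=
      measurable_from_top.comp (measurable_snd.comp (measurable_pt T))
    refine Measurable.mul (((measurable_pi_apply 0).mul_const _).sub e1) ?_
    exact Finset.measurable_fun_prod _ fun i _ => measurable_pi_apply _
  have h3 : eLpNorm er p (mu a' b') ≤ 1 := by
    have h4 : ∀ᵐ y ∂(mu a' b'), ‖er y‖ ≤ 1 := by
      refine hbox.mono fun y hyb => ?_
      obtain ⟨h5, h6, h7⟩ := hy y hyb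
      have h8 : 0 ≤ y 0 * T := mul_nonneg h5 hT0.le
      have h9 : ((pt T y).2 : ℝ) ≤ y 0 * T := Nat.floor_le h8
      have h10 : y 0 * T < ((pt T y).2 : ℝ) + 1 := Nat.lt_floor_add_one _
      have h11 : 0 ≤ ∏ i, Fin.tail y i := Finset.prod_nonneg fun i _ => (h7 i).1
      have h12 : ∏ i, Fin.tail y i ≤ 1 := Finset.prod_le_one (fun i _ => (h7 i).1) fun i _ =>
        (h7 i).2
      rw [her, Real.norm_eq_abs]
      dsimp only
      rw [abs_of_nonneg (mul_nonneg (by linarith) h11)]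
      calc (y 0 * T - (pt T y).2) * ∏ i, Fin.tail y i ≤ 1 * 1 :=
            mul_le_mul (by linarith) h12 h11 (by norm_num)
        _ = 1 := one_mul 1
    have h5 := eLpNorm_le_of_ae_bound (p := p) h4
    refine h5.trans ?_
    rw [measure_univ, ENNReal.one_rpow, one_mul, ENNReal.ofReal_one]
  have h4 : eLpNorm ((T : ℝ) • Dd) p (mu a' b') =
      ENNReal.ofReal (T : ℝ) * eLpNorm Dd p (mu a' b') := by
    rw [eLpNorm_const_smul]
    congr 1
    rw [← ofReal_norm, Real.norm_eq_abs, abs_of_pos hT0]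
  rw [← h4, h2, h1]
  refine (eLpNorm_add_le ?_ herm.aestronglyMeasurable hp).trans ?_
  · exact (hFm.comp (measurable_pt T)).neg.aestronglyMeasurable
  · refine add_le_add (le_of_eq ?_) h3
    have e5 : (fun y => -F z f h (pt T y)) = -(fun y => F z f h (pt T y)) := rfl
    rw [e5, eLpNorm_neg]

/-- the growth factor is bounded below -/
theorem RR_ge (d : ℕ) (hd : 1 ≤ d) {x : ℝ} (hx : 3 ≤ x) : 1 / Real.sqrt d ≤ RR d x := by
  have h1 := Pool.Agent.N628.EB.log_ge_one hx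
  have h2 := Pool.Agent.N628.EB.log_log_pos hx
  have hdR : (0 : ℝ) < d := by exact_mod_cast hd
  have h3 : Real.log (Real.log x) ≤ (Real.log x) ^ (1 / (d : ℝ)) / (1 / (d : ℝ)) :=
    Real.log_le_rpow_div (by linarith) (by positivity)
  have h4 : (Real.log (Real.log x)) ^ (1 / 2 : ℝ) ≤
      Real.sqrt d * (Real.log x) ^ (1 / (2 * (d : ℝ))) := by
    calc (Real.log (Real.log x)) ^ (1 / 2 : ℝ)
        ≤ ((Real.log x) ^ (1 / (d : ℝ)) / (1 / (d : ℝ))) ^ (1 / 2 : ℝ) :=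
          Real.rpow_le_rpow h2.le h3 (by norm_num)
      _ = (d * (Real.log x) ^ (1 / (d : ℝ))) ^ (1 / 2 : ℝ) := by
          congr 1
          field_simp
      _ = Real.sqrt d * (Real.log x) ^ (1 / (2 * (d : ℝ))) := by
          rw [Real.mul_rpow hdR.le (by positivity), ← Real.rpow_mul (by linarith),
            Real.sqrt_eq_rpow]
          congr 2
          field_simp
  unfold RR
  have h5 : 0 < (Real.log (Real.log x)) ^ (1 / 2 : ℝ) := Real.rpow_pos_of_pos h2 _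
  rw [div_le_div_iff₀ (Real.sqrt_pos.2 hdR) h5]
  linarith

theorem half_le {X Y : ENNReal} (h2 : 2 ≤ X) (ht : X ≠ ⊤) (h : X ≤ Y + 1) :
    ENNReal.ofReal (1 / 2) * X ≤ Y := by
  by_cases hY : Y = ⊤
  · rw [hY]; exact le_top
  lift X to NNReal using ht
  lift Y to NNReal using hY
  have h2' : (2 : ℝ) ≤ X := by exact_mod_cast h2
  have h' : (X : ℝ) ≤ Y + 1 := by exact_mod_cast h
  have h3 : ENNReal.ofReal (1 / 2) = ((1 / 2 : NNReal) : ENNReal) := by
    rw [show (1 / 2 : ℝ) = ((1 / 2 : NNReal) : ℝ) by norm_num]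
    exact ENNReal.ofReal_coe_nnreal
  rw [h3, ← ENNReal.coe_mul]
  have : ((1 / 2 : NNReal) * X : NNReal) ≤ Y := by
    rw [← NNReal.coe_le_coe]
    push_cast
    linarith
  exact_mod_cast this

/-- **The mean over windows.** -/
theorem main (d : ℕ) (hd : 2 ≤ d) : ∃ c : ℝ, 0 < c ∧ ∃ V₀ : ℝ, 3 ≤ V₀ ∧ ∀ n₀ H : ℕ, 1 ≤ H →
    ∀ a b : Fin d → ℝ, (∀ i, a i < b i) → (∀ i, 0 ≤ a i) → (∀ i, b i ≤ 1) →
    V₀ ≤ H * ∏ i, (b i - a i) →
    ∀ (z : ℕ → Fin d → ℝ) (f : (Fin d → ℝ) → ℝ), Measurable f →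
    ∀ h : Fin d → (Fin d → ℝ) → ℕ → ℝ, (∀ k n, Measurable fun x => h k x n) →
    (∀ (k : Fin d) (x : Fin d → ℝ) (t : ℝ) (n : ℕ), h k (Function.update x k t) n = h k x n) →
    ∀ p : ENNReal, 1 ≤ p →
      ENNReal.ofReal (c * (Real.log (H * ∏ i, (b i - a i))) ^ ((d : ℝ) / 2)) *
        min (p ^ (1 / 2 : ℝ)) (ENNReal.ofReal (RR (d + 1) (H * ∏ i, (b i - a i)))) ≤
      eLpNorm (F z f h) p ((mu a b).prod (wnd (Finset.Ico n₀ (n₀ + H)))) := by
  obtain ⟨c, hc, K⟩ := Pool.Agent.N628.EB.ebox (d + 1) (by omega)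
  have hsd : (0 : ℝ) < Real.sqrt ((d + 1 : ℕ) : ℝ) := Real.sqrt_pos.2 (by positivity)
  refine ⟨1 / 2 * c, by positivity,
    max ((9 : ℝ) ^ (d + 1)) (Real.exp (2 * Real.sqrt ((d + 1 : ℕ) : ℝ) / c)), ?_,
    fun n₀ H hH a b hab ha hb hV z f hf h hh hi p hp => ?_⟩
  · refine le_trans ?_ (le_max_left _ _)
    calc (3 : ℝ) ≤ 9 ^ 1 := by norm_num
      _ ≤ 9 ^ (d + 1) := pow_le_pow_right₀ (by norm_num) (by omega)
  obtain ⟨V, hVd⟩ : ∃ V : ℝ, V = H * ∏ i, (b i - a i) := ⟨_, rfl⟩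
  rw [← hVd] at hV ⊢
  have hV9 : (9 : ℝ) ^ (d + 1) ≤ V := (le_max_left _ _).trans hV
  have hVe : Real.exp (2 * Real.sqrt ((d + 1 : ℕ) : ℝ) / c) ≤ V := (le_max_right _ _).trans hV
  have hV3 : 3 ≤ V := by
    calc (3 : ℝ) ≤ 9 ^ 1 := by norm_num
      _ ≤ 9 ^ (d + 1) := pow_le_pow_right₀ (by norm_num) (by omega)
      _ ≤ V := hV9
  have hlogV := Pool.Agent.N628.EB.log_ge_one hV3
  obtain ⟨T, hT⟩ : ∃ T : ℕ, T = n₀ + H := ⟨_, rfl⟩
  have hT1 : 1 ≤ T := by omega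
  have hT0 : (0 : ℝ) < T := by exact_mod_cast hT1
  have hTR : (T : ℝ) = n₀ + H := by rw [hT]; push_cast; ring
  have hlow := lower n₀ H hH a b hab ha hb z f hf h hh p hp
  rw [← hT] at hlow ⊢
  obtain ⟨a', ha'⟩ : ∃ a' : Fin (d + 1) → ℝ, a' = Fin.cons ((n₀ : ℝ) / (T : ℝ)) a := ⟨_, rfl⟩
  obtain ⟨b', hb'⟩ : ∃ b' : Fin (d + 1) → ℝ, b' = Fin.cons 1 b := ⟨_, rfl⟩
  rw [← ha', ← hb'] at hlow
  have ha0 : a' 0 = (n₀ : ℝ) / (T : ℝ) := by rw [ha', Fin.cons_zero]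
  have hb0 : b' 0 = 1 := by rw [hb', Fin.cons_zero]
  have has : ∀ i : Fin d, a' i.succ = a i := fun i => by rw [ha', Fin.cons_succ]
  have hbs : ∀ i : Fin d, b' i.succ = b i := fun i => by rw [hb', Fin.cons_succ]
  have hab' : ∀ i, a' i < b' i := by
    intro i
    refine Fin.cases ?_ (fun i => ?_) i
    · rw [ha0, hb0, div_lt_one hT0]
      exact_mod_cast (by omega : n₀ < T)
    · rw [has, hbs]; exact hab i
  have hprod : (T : ℝ) * ∏ i, (b' i - a' i) = V := by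
    rw [Fin.prod_univ_succ, ha0, hb0]
    simp only [has, hbs]
    rw [hVd, ← mul_assoc]
    congr 1
    rw [mul_sub, mul_one, mul_div_cancel₀ _ hT0.ne', hTR]
    ring
  have h1 := K T hT0 T (P T z) a' b' hab' (by rw [hprod]; exact hV9) (h' T f h)
    (measurable_h' T f hf h hh) (indep_h' T f h hi) p hp
  rw [hprod] at h1
  have hexp : (((d + 1 : ℕ) : ℝ) - 1) / 2 = (d : ℝ) / 2 := by push_cast; ring
  rw [hexp] at h1
  have hpow : 0 ≤ (Real.log V) ^ ((d : ℝ) / 2) := Real.rpow_nonneg (by linarith) _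
  have h2 : ENNReal.ofReal (c * (Real.log V) ^ ((d : ℝ) / 2)) *
      min (p ^ (1 / 2 : ℝ)) (ENNReal.ofReal (RR (d + 1) V)) ≤
      eLpNorm (F z f h) p ((mu a b).prod (wnd (Finset.Ico n₀ T))) + 1 := by
    refine le_trans ?_ hlow
    refine le_trans ?_ (mul_le_mul' (le_refl _) h1)
    rw [← mul_assoc, ← ENNReal.ofReal_mul hT0.le, mul_div_cancel₀ _ hT0.ne']
  have hR := RR_ge (d + 1) (by omega) hV3
  have hR0 : 0 ≤ RR (d + 1) V := Pool.Agent.N628.EB.RR_nonneg _ hV3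
  have hs1 : 1 / Real.sqrt ((d + 1 : ℕ) : ℝ) ≤ 1 := by
    rw [div_le_one hsd, Real.one_le_sqrt]
    exact_mod_cast (by omega : 1 ≤ d + 1)
  have h3 : (2 : ENNReal) ≤ ENNReal.ofReal (c * (Real.log V) ^ ((d : ℝ) / 2)) *
      min (p ^ (1 / 2 : ℝ)) (ENNReal.ofReal (RR (d + 1) V)) := by
    have h4 : ENNReal.ofReal (1 / Real.sqrt ((d + 1 : ℕ) : ℝ)) ≤
        min (p ^ (1 / 2 : ℝ)) (ENNReal.ofReal (RR (d + 1) V)) := by
      refine le_min ?_ (ENNReal.ofReal_le_ofReal hR)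
      calc ENNReal.ofReal (1 / Real.sqrt ((d + 1 : ℕ) : ℝ)) ≤ ENNReal.ofReal 1 :=
            ENNReal.ofReal_le_ofReal hs1
        _ = 1 := ENNReal.ofReal_one
        _ ≤ p ^ (1 / 2 : ℝ) := ENNReal.one_le_rpow hp (by norm_num)
    refine le_trans ?_ (mul_le_mul' (le_refl _) h4)
    rw [← ENNReal.ofReal_mul (by positivity), show (2 : ENNReal) = ENNReal.ofReal 2 by norm_num]
    apply ENNReal.ofReal_le_ofReal
    have h5 : 2 * Real.sqrt ((d + 1 : ℕ) : ℝ) / c ≤ Real.log V := by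
      rw [Real.le_log_iff_exp_le (by linarith)]
      exact hVe
    have h6 : Real.log V ≤ (Real.log V) ^ ((d : ℝ) / 2) := by
      calc Real.log V = (Real.log V) ^ (1 : ℝ) := (Real.rpow_one _).symm
        _ ≤ (Real.log V) ^ ((d : ℝ) / 2) := by
            apply Real.rpow_le_rpow_of_exponent_le hlogV
            have : (2 : ℝ) ≤ d := by exact_mod_cast hd
            linarith
    rw [div_le_iff₀ hc] at h5
    rw [mul_one_div, le_div_iff₀ hsd]
    nlinarith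
  have h4 : ENNReal.ofReal (c * (Real.log V) ^ ((d : ℝ) / 2)) *
      min (p ^ (1 / 2 : ℝ)) (ENNReal.ofReal (RR (d + 1) V)) ≠ ⊤ := by
    refine ENNReal.mul_ne_top ENNReal.ofReal_ne_top ?_
    exact ne_top_of_le_ne_top ENNReal.ofReal_ne_top (min_le_right _ _)
  refine le_trans (le_of_eq ?_) (half_le h3 h4 h2)
  rw [← mul_assoc, ← ENNReal.ofReal_mul (by norm_num), ← mul_assoc]

/-- **Some term of every window.** -/
theorem main_sup (d : ℕ) (hd : 2 ≤ d) : ∃ c : ℝ, 0 < c ∧ ∃ V₀ : ℝ, 3 ≤ V₀ ∧ ∀ n₀ H : ℕ, 1 ≤ H →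
    ∀ a b : Fin d → ℝ, (∀ i, a i < b i) → (∀ i, 0 ≤ a i) → (∀ i, b i ≤ 1) →
    V₀ ≤ H * ∏ i, (b i - a i) →
    ∀ (z : ℕ → Fin d → ℝ) (f : (Fin d → ℝ) → ℝ), Measurable f →
    ∀ h : Fin d → (Fin d → ℝ) → ℕ → ℝ, (∀ k n, Measurable fun x => h k x n) →
    (∀ (k : Fin d) (x : Fin d → ℝ) (t : ℝ) (n : ℕ), h k (Function.update x k t) n = h k x n) →
      ∃ n x, n₀ ≤ n ∧ n < n₀ + H ∧ x ∈ Set.Icc a b ∧
        c * (Real.log (H * ∏ i, (b i - a i))) ^ ((d : ℝ) / 2) *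
          RR (d + 1) (H * ∏ i, (b i - a i)) ≤ |F z f h (x, n)| := by
  obtain ⟨c, hc, V₀, hV₀, K⟩ := main d hd
  refine ⟨c / 2, by positivity, V₀, hV₀, fun n₀ H hH a b hab ha hb hV z f hf h hh hi => ?_⟩
  have h1 := K n₀ H hH a b hab ha hb hV z f hf h hh hi ⊤ le_top
  obtain ⟨V, hVd⟩ : ∃ V : ℝ, V = H * ∏ i, (b i - a i) := ⟨_, rfl⟩
  rw [← hVd] at hV h1 ⊢
  have hV3 : 3 ≤ V := hV₀.trans hV
  have hlogV := Pool.Agent.N628.EB.log_ge_one hV3
  by_contra hcon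
  push Not at hcon
  have hpow : 0 < (Real.log V) ^ ((d : ℝ) / 2) := Real.rpow_pos_of_pos (by linarith) _
  have hR : 0 < RR (d + 1) V :=
    lt_of_lt_of_le (by positivity) (RR_ge (d + 1) (by omega) hV3)
  have hp1 := mu_prob hab
  have hp2 := wnd_prob n₀ H hH
  obtain ⟨θ, hθ⟩ : ∃ θ : ℝ, θ = c / 2 * (Real.log V) ^ ((d : ℝ) / 2) * RR (d + 1) V := ⟨_, rfl⟩
  have hθ0 : 0 < θ := by rw [hθ]; positivity
  have h2 : ∀ᵐ v ∂((mu a b).prod (wnd (Finset.Ico n₀ (n₀ + H)))), ‖F z f h v‖ ≤ θ := by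
    have e1 : ∀ᵐ x ∂(mu a b), x ∈ Set.Icc a b := by
      unfold mu
      exact Measure.ae_smul_measure (ae_restrict_mem measurableSet_Icc) _
    have e2 : ∀ᵐ n ∂(wnd (Finset.Ico n₀ (n₀ + H))), n ∈ Finset.Ico n₀ (n₀ + H) := by
      unfold wnd
      exact Measure.ae_smul_measure (ae_restrict_mem (Finset.measurableSet _)) _
    have e3 : ∀ᵐ v ∂((mu a b).prod (wnd (Finset.Ico n₀ (n₀ + H)))), v.1 ∈ Set.Icc a b :=
      Measure.quasiMeasurePreserving_fst.ae e1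
    have e4 : ∀ᵐ v ∂((mu a b).prod (wnd (Finset.Ico n₀ (n₀ + H)))),
        v.2 ∈ Finset.Ico n₀ (n₀ + H) := Measure.quasiMeasurePreserving_snd.ae e2
    filter_upwards [e3, e4] with v hv1 hv2
    obtain ⟨hv3, hv4⟩ := Finset.mem_Ico.1 hv2
    have := hcon v.2 v.1 hv3 hv4 hv1
    rw [← hθ] at this
    exact this.le
  have h3 := eLpNorm_le_of_ae_bound (p := ⊤) h2
  rw [measure_univ, ENNReal.one_rpow, one_mul] at h3
  have h4 : (⊤ : ENNReal) ^ (1 / 2 : ℝ) = ⊤ := ENNReal.top_rpow_of_pos (by norm_num)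
  rw [h4, min_eq_right le_top] at h1
  have h5 := h1.trans h3
  rw [← ENNReal.ofReal_mul (by positivity), ENNReal.ofReal_le_ofReal_iff hθ0.le, hθ] at h5
  have h6 : 0 < c * (Real.log V) ^ ((d : ℝ) / 2) * RR (d + 1) V := by positivity
  linarith

end Pool.Agent.N628.SW
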